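import Pool.Agent.KS6_55.FJ.Iso

/-!
Matching of the actions of two groups on sets with characters, over a common subgroup.
-/

set_option autoImplicit false

namespace Pool.Agent.KS6_55.FJ

/-- the commutative group structure on a subgroup whose elements commute -/
@[reducible] def commOf {H : Type} [Group H] (h : ∀ a b : H, a * b = b * a) : CommGroup H :=
  { (inferInstance : Group H) with mul_comm := h }

/-- extension of characters -/
theorem ext_char {K H : Type} [Group K] [Group H] (hH : ∀ a b : H, a * b = b * a)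
    (j : K →* H) (hj : Function.Injective j) (l : Additive K →+ DD) :
    ∃ m : Additive H →+ DD, ∀ k : K, m (Additive.ofMul (j k)) = l (Additive.ofMul k) := by
  let _ : CommGroup H := commOf hH
  let _ : CommGroup K := commOf (fun a b => hj (by rw [map_mul, map_mul, hH]))
  let f : Additive K →ₗ[ℤ] Additive H := (MonoidHom.toAdditive j).toIntLinearMap
  have hf : Function.Injective f := fun a b h => hj h
  obtain ⟨m, hm⟩ := CharacterModule.dual_surjective_of_injective f hf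
    (show CharacterModule (Additive K) from l)
  refine ⟨m, fun k => ?_⟩
  have := DFunLike.congr_fun hm (Additive.ofMul k)
  exact this

/-- characters separate the elements -/
theorem sep_char {H : Type} [Group H] (hH : ∀ a b : H, a * b = b * a) (a : H) (ha : a ≠ 1) :
    ∃ m : Additive H →+ DD, m (Additive.ofMul a) ≠ 0 := by
  let _ : CommGroup H := commOf hH
  obtain ⟨c, hc⟩ := CharacterModule.exists_character_apply_ne_zero_of_ne_zero
    (a := Additive.ofMul a) (fun h => ha h)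
  exact ⟨c, hc⟩

variable {K H₁ H₂ : Type} [Group K] [Group H₁] [Group H₂]

/-- the restriction of the character of a point -/
theorem label {N₁ : Subgroup H₁} [N₁.Normal] {I : Type} (ι₁ : K →* H₁) (NK : Subgroup K)
    (h1 : NK = N₁.comap ι₁) (y : YY N₁ I) :
    ∃ l : Additive NK →+ DD, ∀ (k : K) (δ : Multiplicative DD),
      rhoL ι₁ (k, δ) y = y ↔ ∃ hk : k ∈ NK, l (Additive.ofMul ⟨k, hk⟩) + δ.toAdd = 0 := by
  subst h1
  let j : N₁.comap ι₁ →* N₁ :=
    { toFun := fun k => ⟨y.1.1.out⁻¹ * ι₁ k * y.1.1.out, by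
        have := Subgroup.Normal.conj_mem ‹N₁.Normal› _ k.2 (y.1.1.out)⁻¹
        rwa [inv_inv] at this⟩
      map_one' := by
        apply Subtype.ext
        simp
      map_mul' := fun a b => by
        apply Subtype.ext
        simp only [Subgroup.coe_mul, map_mul]
        group }
  refine ⟨y.1.2.1.comp (MonoidHom.toAdditive j), fun k δ => ?_⟩
  rw [fix_iff]
  constructor
  · rintro ⟨hk, h2⟩
    refine ⟨hk, ?_⟩
    have e : ev y.1.2.1 (y.1.1.out⁻¹ * ι₁ k * y.1.1.out) =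
      y.1.2.1 (Additive.ofMul (j ⟨k, hk⟩)) := ev_of_mem _ (j ⟨k, hk⟩).2
    rw [e] at h2
    exact h2
  · rintro ⟨hk, h2⟩
    refine ⟨hk, ?_⟩
    have e : ev y.1.2.1 (y.1.1.out⁻¹ * ι₁ k * y.1.1.out) =
      y.1.2.1 (Additive.ofMul (j ⟨k, hk⟩)) := ev_of_mem _ (j ⟨k, hk⟩).2
    rw [e]
    exact h2

/-- points with a given character -/
theorem point {N₂ : Subgroup H₂} [N₂.Normal] (hc : ∀ a ∈ N₂, ∀ b ∈ N₂, a * b = b * a)
    {I : Type} (ι₂ : K →* H₂) (hι : Function.Injective ι₂) (NK : Subgroup K)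
    (h2 : NK = N₂.comap ι₂) (l : Additive NK →+ DD) (i : I) :
    ∃ y : YY N₂ I, y.1.2.2 = i ∧ ∀ (k : K) (δ : Multiplicative DD),
      rhoL ι₂ (k, δ) y = y ↔ ∃ hk : k ∈ NK, l (Additive.ofMul ⟨k, hk⟩) + δ.toAdd = 0 := by
  subst h2
  let j : N₂.comap ι₂ →* N₂ := (ι₂.comp (N₂.comap ι₂).subtype).codRestrict N₂ (fun k => k.2)
  have hj : Function.Injective j := by
    intro a b h
    apply Subtype.ext
    apply hι
    exact congrArg Subtype.val h
  obtain ⟨m, hm⟩ := ext_char (H := N₂) (fun a b => Subtype.ext (hc a a.2 b b.2)) j hj l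
  refine ⟨((1, m, i), 0), rfl, fun k δ => ?_⟩
  have hb : (1 : H₂ ⧸ N₂).out ∈ N₂ := by
    rw [← QuotientGroup.eq_one_iff]
    exact QuotientGroup.out_eq' _
  have key : ∀ hk : ι₂ k ∈ N₂, ev m ((1 : H₂ ⧸ N₂).out⁻¹ * ι₂ k * (1 : H₂ ⧸ N₂).out) =
      l (Additive.ofMul ⟨k, hk⟩) := by
    intro hk
    rw [hc _ (N₂.mul_mem (N₂.inv_mem hb) hk) _ hb, ← mul_assoc, mul_inv_cancel, one_mul,
      ev_of_mem m hk]
    exact hm ⟨k, hk⟩
  rw [fix_iff]
  constructor
  · rintro ⟨hk, h2⟩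
    refine ⟨hk, ?_⟩
    rw [← key hk]
    exact h2
  · rintro ⟨hk, h2⟩
    refine ⟨hk, ?_⟩
    show ev m ((1 : H₂ ⧸ N₂).out⁻¹ * ι₂ k * (1 : H₂ ⧸ N₂).out) + δ.toAdd = 0
    rw [key hk]
    exact h2

/-- the index is invariant -/
theorem idx_inv {N₁ : Subgroup H₁} [N₁.Normal] {I : Type} (ι₁ : K →* H₁)
    (l : K × Multiplicative DD) (y : YY N₁ I) : (rhoL ι₁ l y).1.2.2 = y.1.2.2 := rfl

/-- **matching** -/
theorem exists_match {N₁ : Subgroup H₁} [N₁.Normal] {N₂ : Subgroup H₂} [N₂.Normal]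
    (hc₁ : ∀ a ∈ N₁, ∀ b ∈ N₁, a * b = b * a) (hc₂ : ∀ a ∈ N₂, ∀ b ∈ N₂, a * b = b * a)
    (ι₁ : K →* H₁) (ι₂ : K →* H₂) (hι₁ : Function.Injective ι₁) (hι₂ : Function.Injective ι₂)
    (hN : N₁.comap ι₁ = N₂.comap ι₂) {I : Type} (e₁ : YY N₁ I → I) (e₂ : YY N₂ I → I)
    (he₁ : Function.Injective e₁) (he₂ : Function.Injective e₂) :
    ∃ ψ : YY N₁ I ≃ YY N₂ I, (∀ (k : K) y, ψ (act (ι₁ k) y) = act (ι₂ k) (ψ y)) ∧
      ∀ (δ : DD) y, ψ (sh δ y) = sh δ (ψ y) := by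
  choose l₁ hl₁ using label (I := I) ι₁ (N₁.comap ι₁) rfl
  choose l₂ hl₂ using label (I := I) ι₂ (N₁.comap ι₁) hN
  choose f hf hf' using fun y : YY N₁ I => point hc₂ ι₂ hι₂ (N₁.comap ι₁) hN (l₁ y) (e₁ y)
  choose g hg hg' using fun y : YY N₂ I => point hc₁ ι₁ hι₁ (N₁.comap ι₁) rfl (l₂ y) (e₂ y)
  obtain ⟨ψ, hψ⟩ := exists_equiv (rhoL (I := I) ι₁) (rhoL (I := I) ι₂) f g
    (by
      rintro y z ⟨l, hl⟩
      have h1 := congrArg (fun w : YY N₂ I => w.1.2.2) hl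
      simp only [idx_inv, hf] at h1
      exact ⟨1, by rw [map_one, he₁ h1]; rfl⟩)
    (by
      rintro y ⟨k, δ⟩
      rw [hl₁, hf'])
    (by
      rintro y z ⟨l, hl⟩
      have h1 := congrArg (fun w : YY N₁ I => w.1.2.2) hl
      simp only [idx_inv, hg] at h1
      exact ⟨1, by rw [map_one, he₂ h1]; rfl⟩)
    (by
      rintro y ⟨k, δ⟩
      rw [hl₂, hg'])
  have h0 : ∀ {H : Type} [Group H] {N : Subgroup H} [N.Normal] (ι : K →* H) (k : K) (y : YY N I),
      rhoL ι (k, 1) y = act (ι k) y := by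
    intro H _ N _ ι k y
    show sh (Multiplicative.toAdd (1 : Multiplicative DD)) (act (ι k) y) = _
    unfold sh
    rw [toAdd_one, add_zero]
  have h1 : ∀ {H : Type} [Group H] {N : Subgroup H} [N.Normal] (ι : K →* H) (δ : DD) (y : YY N I),
      rhoL ι (1, Multiplicative.ofAdd δ) y = sh δ y := by
    intro H _ N _ ι δ y
    show sh (Multiplicative.toAdd (Multiplicative.ofAdd δ)) (act (ι 1) y) = _
    rw [map_one, act_one, toAdd_ofAdd]
  refine ⟨ψ, fun k y => ?_, fun δ y => ?_⟩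
  · rw [← h0, hψ, h0]
  · rw [← h1 ι₁, hψ, h1]

/-- the action is faithful -/
theorem act_faithful {N₁ : Subgroup H₁} [N₁.Normal] (hc₁ : ∀ a ∈ N₁, ∀ b ∈ N₁, a * b = b * a)
    {I : Type} [Nonempty I] (h : H₁) (hh : ∀ y : YY N₁ I, act h y = y) : h = 1 := by
  obtain ⟨i⟩ := ‹Nonempty I›
  have h1 : h ∈ N₁ := by
    have := congrArg (fun w : YY N₁ I => w.1.1) (hh ((1, 0, i), 0))
    exact (smul_eq_iff h _).1 this
  by_contra hne
  obtain ⟨m, hm⟩ := sep_char (H := N₁) (fun a b => Subtype.ext (hc₁ a a.2 b b.2)) ⟨h, h1⟩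
    (fun e => hne (congrArg Subtype.val e))
  apply hm
  have h2 : rhoL (MonoidHom.id H₁) (h, 1) ((((1 : H₁ ⧸ N₁), m, i), 0) : YY N₁ I) =
      (((1 : H₁ ⧸ N₁), m, i), 0) := by
    show sh (Multiplicative.toAdd (1 : Multiplicative DD)) (act h _) = _
    rw [hh]
    unfold sh
    rw [toAdd_one, add_zero]
  rw [fix_iff] at h2
  have h3 := h2.2
  have hb : (1 : H₁ ⧸ N₁).out ∈ N₁ := by
    rw [← QuotientGroup.eq_one_iff]
    exact QuotientGroup.out_eq' _
  have h4 : ev m ((1 : H₁ ⧸ N₁).out⁻¹ * h * (1 : H₁ ⧸ N₁).out) + 0 = 0 := h3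
  rw [hc₁ _ (N₁.mul_mem (N₁.inv_mem hb) h1) _ hb, ← mul_assoc, mul_inv_cancel, one_mul,
    ev_of_mem m h1, add_zero] at h4
  exact h4

/-- elements of the kernel act by translations -/
theorem act_trans {N₁ : Subgroup H₁} [N₁.Normal] {I : Type} (h : H₁) (hh : h ∈ N₁) (y : YY N₁ I) :
    ∃ δ : DD, act h y = sh δ y := by
  refine ⟨ev y.1.2.1 (cc N₁ h y.1.1), ?_⟩
  unfold act sh
  rw [(smul_eq_iff h _).2 hh]

end Pool.Agent.KS6_55.FJ
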