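import Pool.Graph.R_seed8.Y110.FJ.Stm
import Pool.Graph.R_seed8.Y529.FJ.Ext
import Pool.Graph.R_seed8.Y417.FJ.Am
import Pool.Graph.R_seed8.Y961.FJ.Perm
import Pool.Agent.KS6_55.FJ.Match

/-!
Amalgamated products with a homomorphism to a group in `C` with abelian kernels on the factors.
-/

set_option autoImplicit false

namespace Pool.Agent.KS6_55.FJ

open Pool.Agent.Y110.FJ
open Pool.Agent.Y462.SS (Closed)
open scoped commutatorElement

theorem ext_thm : S_EXT := Pool.Agent.Y529.FJ.t_ext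

theorem am_thm : S_AM := Pool.Agent.Y417.FJ.t_am (Pool.Agent.Y961.FJ.t_perm Pool.Agent.Y529.FJ.t_ext)

/-- the class contains the groups generated by an abelian normal subgroup and one more element -/
def AbCyc (C : ∀ (G : Type) [Group G], Prop) : Prop :=
  ∀ (G : Type) [Group G] (N : Subgroup G) [N.Normal] (g : G), (∀ a ∈ N, ∀ b ∈ N, a * b = b * a) →
    N ⊔ Subgroup.zpowers g = ⊤ → C G

section translations

variable {X : Type}

/-- the permutations that commute with the translations -/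
def Eqv (X : Type) : Subgroup (Equiv.Perm (X × DD)) where
  carrier := {σ | ∀ (δ : DD) y, σ (sh δ y) = sh δ (σ y)}
  mul_mem' := by
    intro σ τ hσ hτ δ y
    rw [Equiv.Perm.mul_apply, hτ, hσ, Equiv.Perm.mul_apply]
  one_mem' := fun δ y => rfl
  inv_mem' := by
    intro σ hσ δ y
    rw [Equiv.Perm.inv_eq_iff_eq, hσ]
    have : σ (σ⁻¹ y) = y := σ.apply_symm_apply y
    rw [this]

theorem sh_sh (δ ε : DD) (y : X × DD) : sh δ (sh ε y) = sh (ε + δ) y := by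
  unfold sh
  simp only [add_assoc]

/-- the permutations that commute with the translations and act by translations on each fibre -/
def Trs (X : Type) : Subgroup (Equiv.Perm (X × DD)) where
  carrier := {σ | σ ∈ Eqv X ∧ ∀ y, ∃ δ : DD, σ y = sh δ y}
  mul_mem' := by
    rintro σ τ ⟨hσ, hσ'⟩ ⟨hτ, hτ'⟩
    refine ⟨(Eqv X).mul_mem hσ hτ, fun y => ?_⟩
    obtain ⟨δ, hδ⟩ := hτ' y
    obtain ⟨ε, hε⟩ := hσ' y
    refine ⟨ε + δ, ?_⟩
    rw [Equiv.Perm.mul_apply, hδ, hσ, hε, sh_sh]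
  one_mem' := ⟨(Eqv X).one_mem, fun y => ⟨0, by
    unfold sh
    rw [add_zero]
    rfl⟩⟩
  inv_mem' := by
    rintro σ ⟨hσ, hσ'⟩
    refine ⟨(Eqv X).inv_mem hσ, fun y => ?_⟩
    obtain ⟨δ, hδ⟩ := hσ' y
    refine ⟨-δ, ?_⟩
    rw [Equiv.Perm.inv_eq_iff_eq, hσ, hδ, sh_sh]
    unfold sh
    rw [add_neg_cancel, add_zero]

theorem Trs_comm {σ τ : Equiv.Perm (X × DD)} (hσ : σ ∈ Trs X) (hτ : τ ∈ Trs X) :
    σ * τ = τ * σ := by
  ext1 y
  obtain ⟨δ, hδ⟩ := hσ.2 y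
  obtain ⟨ε, hε⟩ := hτ.2 y
  rw [Equiv.Perm.mul_apply, Equiv.Perm.mul_apply, hδ, hε, hσ.1, hτ.1, hδ, hε, sh_sh, sh_sh,
    add_comm]

theorem Trs_conj {σ τ : Equiv.Perm (X × DD)} (hσ : σ ∈ Eqv X) (hτ : τ ∈ Trs X) :
    σ * τ * σ⁻¹ ∈ Trs X := by
  refine ⟨(Eqv X).mul_mem ((Eqv X).mul_mem hσ hτ.1) ((Eqv X).inv_mem hσ), fun y => ?_⟩
  obtain ⟨δ, hδ⟩ := hτ.2 (σ⁻¹ y)
  refine ⟨δ, ?_⟩
  rw [Equiv.Perm.mul_apply, Equiv.Perm.mul_apply, hδ, hσ]
  have : σ (σ⁻¹ y) = y := σ.apply_symm_apply y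
  rw [this]

end translations

section quot

variable {C : ∀ (G : Type) [Group G], Prop}

/-- the quotient by the commutator subgroup of a normal subgroup -/
theorem quot_mem (hC : ClosedE C) (hm : AbCyc C) {G : Type} [Group G] (R : Subgroup G) [R.Normal]
    (hR : C (G ⧸ R)) : C (G ⧸ ⁅R, R⁆) := by
  set S : Subgroup G := ⁅R, R⁆ with hS
  have hSR : S ≤ R := Subgroup.commutator_le_left R R
  let N : Subgroup (G ⧸ S) := R.map (QuotientGroup.mk' S)
  have hN : N.Normal := Subgroup.Normal.map ‹R.Normal› _ (QuotientGroup.mk'_surjective S)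
  have hab : ∀ a ∈ N, ∀ b ∈ N, a * b = b * a := by
    rintro _ ⟨a, ha, rfl⟩ _ ⟨b, hb, rfl⟩
    rw [← map_mul, ← map_mul, QuotientGroup.mk'_apply, QuotientGroup.mk'_apply, QuotientGroup.eq]
    have h1 : (a * b)⁻¹ * (b * a) = ⁅b⁻¹, a⁻¹⁆ := by
      rw [commutatorElement_def]
      group
    rw [h1]
    exact Subgroup.commutator_mem_commutator (R.inv_mem hb) (R.inv_mem ha)
  have h1 : C ↥N := by
    refine hm N ⊤ 1 (fun a _ b _ => Subtype.ext (hab a a.2 b b.2)) ?_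
    rw [top_sup_eq]
  have h2 : C ((G ⧸ S) ⧸ N) := by
    have e : ((G ⧸ S) ⧸ N) ≃* G ⧸ R := QuotientGroup.quotientQuotientEquivQuotient S R hSR
    exact hC.base.of_injective _ _ e.toMonoidHom e.injective hR
  refine ext_thm C hC (G ⧸ S) N h1 h2 fun g _ => ?_
  refine hm ↥(N ⊔ Subgroup.zpowers g) (N.subgroupOf _)
    ⟨g, (le_sup_right : Subgroup.zpowers g ≤ N ⊔ Subgroup.zpowers g)
      (Subgroup.mem_zpowers g)⟩ ?_ ?_
  · intro a ha b hb
    exact Subtype.ext (hab a ha b hb)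
  · rw [eq_top_iff]
    rintro ⟨x, hx⟩ -
    have hx' := hx
    rw [← SetLike.mem_coe, Subgroup.normal_mul] at hx'
    obtain ⟨a, ha, b, hb, rfl⟩ := hx'
    obtain ⟨n, rfl⟩ := Subgroup.mem_zpowers_iff.1 hb
    have e : (⟨a * g ^ n, hx⟩ : ↥(N ⊔ Subgroup.zpowers g)) =
        ⟨a, (le_sup_left : N ≤ N ⊔ Subgroup.zpowers g) ha⟩ *
          ⟨g, (le_sup_right : Subgroup.zpowers g ≤ N ⊔ Subgroup.zpowers g)
            (Subgroup.mem_zpowers g)⟩ ^ n := by
      apply Subtype.ext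
      simp
    have e2 : (⟨(fun x1 x2 => x1 * x2) a (g ^ n), hx⟩ : ↥(N ⊔ Subgroup.zpowers g)) =
        ⟨a * g ^ n, hx⟩ := rfl
    rw [e2, e]
    exact Subgroup.mul_mem _ ((le_sup_left : N.subgroupOf _ ≤ _) (show _ ∈ N.subgroupOf _ from ha))
      ((le_sup_right : Subgroup.zpowers _ ≤ _) ⟨n, rfl⟩)

end quot

section amalgam

variable {C : ∀ (G : Type) [Group G], Prop}

/-- quotients of amalgamated products by a normal subgroup generated by elements of the factors -/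
theorem Amg.quot {G : Type} [Group G] {A B K : Subgroup G} (h : Amg A B K) (S : Set G)
    (hS : ∀ s ∈ S, s ∈ A ∨ s ∈ B) :
    Amg (A.map (QuotientGroup.mk' (Subgroup.normalClosure S)))
      (B.map (QuotientGroup.mk' (Subgroup.normalClosure S)))
      (K.map (QuotientGroup.mk' (Subgroup.normalClosure S))) where
  le_left := Subgroup.map_mono h.le_left
  le_right := Subgroup.map_mono h.le_right
  gen := by
    rw [← Subgroup.map_sup, h.gen, ← MonoidHom.range_eq_map, MonoidHom.range_eq_top]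
    exact QuotientGroup.mk'_surjective _
  univ := by
    intro H _ f g hfg
    let q := QuotientGroup.mk' (Subgroup.normalClosure S)
    let fA : A →* H := f.comp ((q.comp A.subtype).codRestrict (A.map q) (fun a => ⟨a, a.2, rfl⟩))
    let gB : B →* H := g.comp ((q.comp B.subtype).codRestrict (B.map q) (fun b => ⟨b, b.2, rfl⟩))
    obtain ⟨φ, h1, h2⟩ := h.univ H fA gB (fun c hc => hfg (q c) ⟨c, hc, rfl⟩)
    have hker : Subgroup.normalClosure S ≤ φ.ker := by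
      apply Subgroup.normalClosure_le_normal
      intro s hs
      show φ s = 1
      have hs1 : q s = 1 := (QuotientGroup.eq_one_iff s).2 (Subgroup.subset_normalClosure hs)
      rcases hS s hs with h3 | h3
      · rw [h1 ⟨s, h3⟩]
        show f ⟨q s, _⟩ = 1
        have : (⟨q s, ⟨s, h3, rfl⟩⟩ : A.map q) = 1 := Subtype.ext hs1
        rw [this, map_one]
      · rw [h2 ⟨s, h3⟩]
        show g ⟨q s, _⟩ = 1
        have : (⟨q s, ⟨s, h3, rfl⟩⟩ : B.map q) = 1 := Subtype.ext hs1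
        rw [this, map_one]
    refine ⟨QuotientGroup.lift _ φ hker, ?_, ?_⟩
    · rintro ⟨_, a, ha, rfl⟩
      exact h1 ⟨a, ha⟩
    · rintro ⟨_, b, hb, rfl⟩
      exact h2 ⟨b, hb⟩

/-- the representation by permutations that commute with the translations -/
theorem exists_rep {G : Type} [Group G] {A B K : Subgroup G} (h : Amg A B K) (N : Subgroup G)
    [N.Normal] (hA : ∀ a ∈ A, ∀ b ∈ A, a ∈ N → b ∈ N → a * b = b * a)
    (hB : ∀ a ∈ B, ∀ b ∈ B, a ∈ N → b ∈ N → a * b = b * a) :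
    ∃ (X : Type) (F : G →* Equiv.Perm (X × DD)), (∀ g, F g ∈ Eqv X) ∧
      (∀ g ∈ A, g ∈ N → F g ∈ Trs X) ∧ (∀ g ∈ B, g ∈ N → F g ∈ Trs X) ∧
      (∀ g ∈ A, F g = 1 → g = 1) ∧ ∀ g ∈ B, F g = 1 → g = 1 := by
  let N₁ : Subgroup A := N.subgroupOf A
  let N₂ : Subgroup B := N.subgroupOf B
  have hc₁ : ∀ a ∈ N₁, ∀ b ∈ N₁, a * b = b * a := fun a ha b hb =>
    Subtype.ext (hA a a.2 b b.2 ha hb)
  have hc₂ : ∀ a ∈ N₂, ∀ b ∈ N₂, a * b = b * a := fun a ha b hb =>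
    Subtype.ext (hB a a.2 b b.2 ha hb)
  let Z : Type := ((A ⧸ N₁) × Ch N₁ × DD) ⊕ ((B ⧸ N₂) × Ch N₂ × DD)
  let I : Type := ℕ → Z
  have hI : Nonempty I := ⟨fun _ => Sum.inl (1, 0, 0)⟩
  let e₁ : YY N₁ I → I := fun y n => Nat.casesOn n (Sum.inl (y.1.1, y.1.2.1, y.2)) y.1.2.2
  let e₂ : YY N₂ I → I := fun y n => Nat.casesOn n (Sum.inr (y.1.1, y.1.2.1, y.2)) y.1.2.2
  have he₁ : Function.Injective e₁ := by
    rintro ⟨⟨x, α, i⟩, d⟩ ⟨⟨x', α', i'⟩, d'⟩ he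
    have h0 := congrFun he 0
    have hi : i = i' := funext fun n => congrFun he (n + 1)
    have h1 : (x, α, d) = (x', α', d') := Sum.inl.inj h0
    simp only [Prod.mk.injEq] at h1
    obtain ⟨rfl, rfl, rfl⟩ := h1
    rw [hi]
  have he₂ : Function.Injective e₂ := by
    rintro ⟨⟨x, α, i⟩, d⟩ ⟨⟨x', α', i'⟩, d'⟩ he
    have h0 := congrFun he 0
    have hi : i = i' := funext fun n => congrFun he (n + 1)
    have h1 : (x, α, d) = (x', α', d') := Sum.inr.inj h0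
    simp only [Prod.mk.injEq] at h1
    obtain ⟨rfl, rfl, rfl⟩ := h1
    rw [hi]
  obtain ⟨ψ, hψ, hψ'⟩ := exists_match hc₁ hc₂ (Subgroup.inclusion h.le_left)
    (Subgroup.inclusion h.le_right) (Subgroup.inclusion_injective _)
    (Subgroup.inclusion_injective _) rfl e₁ e₂ he₁ he₂
  let f : A →* Equiv.Perm (YY N₁ I) := rho N₁ I
  let g : B →* Equiv.Perm (YY N₁ I) :=
    (ψ.symm.permCongrHom.toMonoidHom).comp (rho N₂ I)
  have hg : ∀ b y, g b y = ψ.symm (act b (ψ y)) := fun b y => rfl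
  obtain ⟨F, hFA, hFB⟩ := h.univ (Equiv.Perm (YY N₁ I)) f g (by
    intro c hc
    ext1 y
    rw [hg, Equiv.eq_symm_apply]
    exact hψ ⟨c, hc⟩ y)
  have hψs : ∀ (δ : DD) z, ψ.symm (sh δ z) = sh δ (ψ.symm z) := by
    intro δ z
    rw [Equiv.symm_apply_eq, hψ', Equiv.apply_symm_apply]
  have hA' : ∀ a ∈ A, F a ∈ Eqv ((A ⧸ N₁) × Ch N₁ × I) := by
    intro a ha δ y
    rw [hFA ⟨a, ha⟩]
    exact act_sh _ _ _
  have hB' : ∀ b ∈ B, F b ∈ Eqv ((A ⧸ N₁) × Ch N₁ × I) := by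
    intro b hb δ y
    rw [hFB ⟨b, hb⟩, hg, hg, hψ', act_sh, hψs]
  refine ⟨(A ⧸ N₁) × Ch N₁ × I, F, ?_, ?_, ?_, ?_, ?_⟩
  · intro x
    have hle : A ⊔ B ≤ (Eqv ((A ⧸ N₁) × Ch N₁ × I)).comap F :=
      sup_le (fun a ha => hA' a ha) (fun b hb => hB' b hb)
    rw [h.gen] at hle
    exact hle (Subgroup.mem_top x)
  · intro a ha haN
    refine ⟨hA' a ha, fun y => ?_⟩
    rw [hFA ⟨a, ha⟩]
    exact act_trans (N₁ := N₁) ⟨a, ha⟩ haN y
  · intro b hb hbN
    refine ⟨hB' b hb, fun y => ?_⟩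
    rw [hFB ⟨b, hb⟩, hg]
    obtain ⟨δ, hδ⟩ := act_trans (N₁ := N₂) ⟨b, hb⟩ hbN (ψ y)
    exact ⟨δ, by rw [hδ, hψs, Equiv.symm_apply_apply]⟩
  · intro a ha h1
    have h2 : (⟨a, ha⟩ : A) = 1 := by
      apply act_faithful (I := I) hc₁
      intro y
      have h3 : F a y = act (⟨a, ha⟩ : A) y := by rw [hFA ⟨a, ha⟩]; rfl
      rw [← h3, h1]
      rfl
    exact congrArg Subtype.val h2
  · intro b hb h1
    have h2 : (⟨b, hb⟩ : B) = 1 := by
      apply act_faithful (I := I) hc₂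
      intro y
      have h3 : F b (ψ.symm y) = ψ.symm (act (⟨b, hb⟩ : B) y) := by
        rw [hFB ⟨b, hb⟩, hg, Equiv.apply_symm_apply]
      rw [h1] at h3
      exact (ψ.symm.injective h3).symm
    exact congrArg Subtype.val h2

/-- **Amalgamated products.** -/
theorem amalgam (hC : ClosedE C) (hm : AbCyc C) {G Q : Type} [Group G] [Group Q]
    {A B K : Subgroup G} (h : Amg A B K) (π : G →* Q) (hQ : C Q)
    (hA : ∀ a ∈ A, ∀ b ∈ A, π a = 1 → π b = 1 → a * b = b * a)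
    (hB : ∀ a ∈ B, ∀ b ∈ B, π a = 1 → π b = 1 → a * b = b * a) : C G := by
  obtain ⟨X, F, hF, hFA, hFB, hA1, hB1⟩ := exists_rep h π.ker hA hB
  let S : Set G := {s | (s ∈ A ∨ s ∈ B) ∧ π s = 1}
  let R : Subgroup G := Subgroup.normalClosure S
  have hRπ : R ≤ π.ker := Subgroup.normalClosure_le_normal (fun s hs => hs.2)
  -- the quotient by `R`
  have hCR : C (G ⧸ R) := by
    let π' : G ⧸ R →* Q := QuotientGroup.lift R π hRπ
    refine am_thm C hC (G ⧸ R) Q _ _ _ (Amg.quot h S (fun s hs => hs.1)) π' ?_ ?_ hQ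
    · rintro _ ⟨a, ha, rfl⟩ h1
      exact (QuotientGroup.eq_one_iff a).2 (Subgroup.subset_normalClosure ⟨Or.inl ha, h1⟩)
    · rintro _ ⟨a, ha, rfl⟩ h1
      exact (QuotientGroup.eq_one_iff a).2 (Subgroup.subset_normalClosure ⟨Or.inr ha, h1⟩)
  -- `R` acts by translations
  let T : Subgroup G := (Trs X).comap F
  have hT : T.Normal := ⟨fun t ht g => by
    show F (g * t * g⁻¹) ∈ Trs X
    rw [map_mul, map_mul, map_inv]
    exact Trs_conj (hF g) ht⟩
  have hRT : R ≤ T := Subgroup.normalClosure_le_normal (by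
    rintro s ⟨h1 | h1, h2⟩
    · exact hFA s h1 h2
    · exact hFB s h1 h2)
  have hcomm : ⁅R, R⁆ ≤ F.ker := by
    rw [Subgroup.commutator_le]
    intro a ha b hb
    show F ⁅a, b⁆ = 1
    rw [map_commutatorElement, commutatorElement_eq_one_iff_mul_comm]
    exact Trs_comm (hRT ha) (hRT hb)
  refine am_thm C hC G (G ⧸ ⁅R, R⁆) A B K h (QuotientGroup.mk' _) ?_ ?_ (quot_mem hC hm R hCR)
  · intro a ha h1
    exact hA1 a ha (hcomm ((QuotientGroup.eq_one_iff a).1 h1))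
  · intro a ha h1
    exact hB1 a ha (hcomm ((QuotientGroup.eq_one_iff a).1 h1))

end amalgam

end Pool.Agent.KS6_55.FJ
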