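import Pool.Agent.KS6_55.FJ.Am

/-!
Amalgamated products with compatible series with abelian factors.
-/

set_option autoImplicit false

namespace Pool.Agent.KS6_55.FJ

open Pool.Agent.Y110.FJ
open Pool.Agent.Y462.SS (Closed)
open scoped commutatorElement

/-- the action on the cosets of a normal subgroup, with an index -/
def rho0 {H : Type} [Group H] (N : Subgroup H) [N.Normal] (I : Type) :
    H →* Equiv.Perm ((H ⧸ N) × I) :=
  permHom (fun h y => (h • y.1, y.2)) (fun y => by simp) (fun g h y => by simp [mul_smul])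

theorem rho0_apply {H : Type} [Group H] (N : Subgroup H) [N.Normal] (I : Type) (h : H)
    (y : (H ⧸ N) × I) : rho0 N I h y = (h • y.1, y.2) := rfl

theorem rho0_fix {H : Type} [Group H] (N : Subgroup H) [N.Normal] (I : Type) (h : H)
    (y : (H ⧸ N) × I) : rho0 N I h y = y ↔ h ∈ N := by
  rw [rho0_apply, ← smul_eq_iff (N := N) h y.1]
  constructor
  · intro h1
    exact congrArg Prod.fst h1
  · intro h1
    exact Prod.ext h1 rfl

/-- homomorphisms with prescribed kernels on the factors -/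
theorem exists_rep0 {G : Type} [Group G] {A B K : Subgroup G} (h : Amg A B K)
    (A₁ : Subgroup A) [A₁.Normal] (B₁ : Subgroup B) [B₁.Normal]
    (hK : ∀ (k : G) (hk : k ∈ K), (⟨k, h.le_left hk⟩ : A) ∈ A₁ ↔ (⟨k, h.le_right hk⟩ : B) ∈ B₁) :
    ∃ (X : Type) (F : G →* Equiv.Perm X), (∀ a : A, F a = 1 ↔ a ∈ A₁) ∧
      ∀ b : B, F b = 1 ↔ b ∈ B₁ := by
  let I : Type := ℕ → ((A ⧸ A₁) ⊕ (B ⧸ B₁))
  let i₀ : I := fun _ => Sum.inl 1
  let e₁ : (A ⧸ A₁) × I → I := fun y n => Nat.casesOn n (Sum.inl y.1) y.2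
  let e₂ : (B ⧸ B₁) × I → I := fun y n => Nat.casesOn n (Sum.inr y.1) y.2
  have he₁ : Function.Injective e₁ := by
    rintro ⟨x, i⟩ ⟨x', i'⟩ he
    have h0 := congrFun he 0
    have hi : i = i' := funext fun n => congrFun he (n + 1)
    rw [hi, show x = x' from Sum.inl.inj h0]
  have he₂ : Function.Injective e₂ := by
    rintro ⟨x, i⟩ ⟨x', i'⟩ he
    have h0 := congrFun he 0
    have hi : i = i' := funext fun n => congrFun he (n + 1)
    rw [hi, show x = x' from Sum.inr.inj h0]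
  obtain ⟨ψ, hψ⟩ := exists_equiv
    ((rho0 A₁ I).comp (Subgroup.inclusion h.le_left))
    ((rho0 B₁ I).comp (Subgroup.inclusion h.le_right))
    (fun y => (1, e₁ y)) (fun y => (1, e₂ y))
    (by
      rintro y z ⟨l, hl⟩
      have h1 : e₁ y = e₁ z := congrArg Prod.snd hl
      exact ⟨1, by rw [map_one, he₁ h1]; rfl⟩)
    (by
      rintro y ⟨k, hk⟩
      exact (rho0_fix A₁ I _ y).trans ((hK k hk).trans (rho0_fix B₁ I _ _).symm))
    (by
      rintro y z ⟨l, hl⟩
      have h1 : e₂ y = e₂ z := congrArg Prod.snd hl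
      exact ⟨1, by rw [map_one, he₂ h1]; rfl⟩)
    (by
      rintro y ⟨k, hk⟩
      exact (rho0_fix A₁ I _ _).trans ((hK k hk).trans (rho0_fix B₁ I _ _).symm))
  let g : B →* Equiv.Perm ((A ⧸ A₁) × I) :=
    (ψ.symm.permCongrHom.toMonoidHom).comp (rho0 B₁ I)
  have hg : ∀ b y, g b y = ψ.symm (rho0 B₁ I b (ψ y)) := fun b y => rfl
  obtain ⟨F, hFA, hFB⟩ := h.univ (Equiv.Perm ((A ⧸ A₁) × I)) (rho0 A₁ I) g (by
    intro c hc
    ext1 y
    rw [hg, Equiv.eq_symm_apply]
    exact hψ ⟨c, hc⟩ y)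
  refine ⟨_, F, fun a => ?_, fun b => ?_⟩
  · rw [hFA a]
    constructor
    · intro h1
      rw [← rho0_fix A₁ I a (1, i₀), h1]
      rfl
    · intro h1
      ext1 y
      exact (rho0_fix A₁ I a y).2 h1
  · rw [hFB b]
    constructor
    · intro h1
      have h2 : g b (ψ.symm (1, i₀)) = ψ.symm (1, i₀) := by rw [h1]; rfl
      rw [hg, Equiv.apply_symm_apply] at h2
      exact (rho0_fix B₁ I b _).1 (ψ.symm.injective h2)
    · intro h1
      ext1 y
      rw [hg, (rho0_fix B₁ I b _).2 h1, Equiv.symm_apply_apply]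
      rfl

/-- a compatible pair of finite decreasing series with abelian factors -/
structure Series {G : Type} [Group G] (A B K : Subgroup G) (n : ℕ) (a b : ℕ → Subgroup G) :
    Prop where
  leA : ∀ i, a i ≤ A
  leB : ∀ i, b i ≤ B
  normalA : ∀ i, ((a i).subgroupOf A).Normal
  normalB : ∀ i, ((b i).subgroupOf B).Normal
  decA : ∀ i, a (i + 1) ≤ a i
  decB : ∀ i, b (i + 1) ≤ b i
  inter : ∀ i, ∀ x ∈ K, x ∈ a i ↔ x ∈ b i
  commA : ∀ i, i < n → ∀ x ∈ a i, ∀ y ∈ a i, x * y * x⁻¹ * y⁻¹ ∈ a (i + 1)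
  commB : ∀ i, i < n → ∀ x ∈ b i, ∀ y ∈ b i, x * y * x⁻¹ * y⁻¹ ∈ b (i + 1)
  botA : a n = ⊥
  botB : b n = ⊥

/-- **Amalgamated products with compatible series.** -/
theorem amalgam_chain {C : ∀ (G : Type) [Group G], Prop} (hC : ClosedE C) (hm : AbCyc C)
    {G : Type} [Group G] {A B K : Subgroup G} (h : Amg A B K) (n : ℕ) :
    ∀ (Q : Type) [Group Q] (π : G →* Q) (a b : ℕ → Subgroup G), C Q → Series A B K n a b →
    (∀ x ∈ A, π x = 1 ↔ x ∈ a 0) → (∀ x ∈ B, π x = 1 ↔ x ∈ b 0) → C G := by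
  induction n with
  | zero =>
    intro Q _ π a b hQ hs ha0 hb0
    refine am_thm C hC G Q A B K h π ?_ ?_ hQ
    · intro x hx h1
      have := (ha0 x hx).1 h1
      rw [hs.botA] at this
      exact Subgroup.mem_bot.1 this
    · intro x hx h1
      have := (hb0 x hx).1 h1
      rw [hs.botB] at this
      exact Subgroup.mem_bot.1 this
  | succ n ih =>
    intro Q _ π a b hQ hs ha0 hb0
    let S : Set G := {s | s ∈ a 1 ∨ s ∈ b 1}
    let R : Subgroup G := Subgroup.normalClosure S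
    have hAn := hs.normalA 1
    have hBn := hs.normalB 1
    -- the kernel
    obtain ⟨X, F, hFA, hFB⟩ := exists_rep0 h ((a 1).subgroupOf A) ((b 1).subgroupOf B)
      (fun k hk => hs.inter 1 k hk)
    have hRF : R ≤ F.ker := Subgroup.normalClosure_le_normal (by
      rintro s (h1 | h1)
      · exact (hFA ⟨s, hs.leA 1 h1⟩).2 h1
      · exact (hFB ⟨s, hs.leB 1 h1⟩).2 h1)
    have hRA : ∀ x ∈ A, (QuotientGroup.mk' R x = 1 ↔ x ∈ a 1) := by
      intro x hx
      constructor
      · intro h1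
        exact (hFA ⟨x, hx⟩).1 (hRF ((QuotientGroup.eq_one_iff x).1 h1))
      · intro h1
        exact (QuotientGroup.eq_one_iff x).2 (Subgroup.subset_normalClosure (Or.inl h1))
    have hRB : ∀ x ∈ B, (QuotientGroup.mk' R x = 1 ↔ x ∈ b 1) := by
      intro x hx
      constructor
      · intro h1
        exact (hFB ⟨x, hx⟩).1 (hRF ((QuotientGroup.eq_one_iff x).1 h1))
      · intro h1
        exact (QuotientGroup.eq_one_iff x).2 (Subgroup.subset_normalClosure (Or.inr h1))
    -- the first quotient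
    have hcom : ∀ x y : G, QuotientGroup.mk' R (x * y * x⁻¹ * y⁻¹) = 1 →
        QuotientGroup.mk' R x * QuotientGroup.mk' R y =
          QuotientGroup.mk' R y * QuotientGroup.mk' R x := by
      intro x y h1
      rw [← commutatorElement_def, map_commutatorElement,
        commutatorElement_eq_one_iff_mul_comm] at h1
      exact h1
    have hRπ : R ≤ π.ker := Subgroup.normalClosure_le_normal (by
      rintro s (h1 | h1)
      · exact (ha0 s (hs.leA 1 h1)).2 (hs.decA 0 h1)
      · exact (hb0 s (hs.leB 1 h1)).2 (hs.decB 0 h1))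
    have hG1 : C (G ⧸ R) := by
      refine amalgam hC hm (Amg.quot h S ?_) (QuotientGroup.lift R π hRπ) hQ ?_ ?_
      · rintro s (h1 | h1)
        · exact Or.inl (hs.leA 1 h1)
        · exact Or.inr (hs.leB 1 h1)
      · rintro _ ⟨x, hx, rfl⟩ _ ⟨y, hy, rfl⟩ h1 h2
        have h3 : x ∈ a 0 := (ha0 x hx).1 h1
        have h4 : y ∈ a 0 := (ha0 y hy).1 h2
        have h5 := hs.commA 0 (by omega) x h3 y h4
        exact hcom x y ((hRA _ (hs.leA 1 h5)).2 h5)
      · rintro _ ⟨x, hx, rfl⟩ _ ⟨y, hy, rfl⟩ h1 h2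
        have h3 : x ∈ b 0 := (hb0 x hx).1 h1
        have h4 : y ∈ b 0 := (hb0 y hy).1 h2
        have h5 := hs.commB 0 (by omega) x h3 y h4
        exact hcom x y ((hRB _ (hs.leB 1 h5)).2 h5)
    exact ih (G ⧸ R) (QuotientGroup.mk' R) (fun i => a (i + 1)) (fun i => b (i + 1)) hG1
      ⟨fun i => hs.leA _, fun i => hs.leB _, fun i => hs.normalA _, fun i => hs.normalB _,
        fun i => hs.decA _, fun i => hs.decB _, fun i => hs.inter _,
        fun i hi => hs.commA (i + 1) (by omega), fun i hi => hs.commB (i + 1) (by omega),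
        hs.botA, hs.botB⟩ hRA hRB

end Pool.Agent.KS6_55.FJ
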