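import Pool.Graph.R_pool_sql_team_seeded_1acbe0a2.Y576.FJ.Hnn
import Pool.Agent.KS6_55.FJ.Am

/-!
HNN extensions with a homomorphism to a group in `C` with abelian kernel on the base.
-/

set_option autoImplicit false

namespace Pool.Agent.KS6_55.FJ

open Pool.Agent.Y110.FJ
open Pool.Agent.Y462.SS (Closed)
open scoped commutatorElement
open HNNExtension (of t lift)

theorem hnn_thm : S_HNN :=
  Pool.Agent.Y576.FJ.t_hnn (Pool.Agent.Y961.FJ.t_perm Pool.Agent.Y529.FJ.t_ext)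

section quotiso

variable {M : Type} [Group M] {A B : Subgroup M} (φ : A ≃* B) (M₁ : Subgroup M) [M₁.Normal]

/-- the isomorphism induced on the quotients -/
theorem quot_iso (h : ∀ a : A, (a : M) ∈ M₁ ↔ (φ a : M) ∈ M₁) :
    ∃ φ' : A.map (QuotientGroup.mk' M₁) ≃* B.map (QuotientGroup.mk' M₁),
      ∀ a : A, ((φ' ⟨QuotientGroup.mk' M₁ a, ⟨a, a.2, rfl⟩⟩ : B.map (QuotientGroup.mk' M₁)) :
        M ⧸ M₁) = QuotientGroup.mk' M₁ (φ a : M) := by
  have hc : ∀ x : A.map (QuotientGroup.mk' M₁), ∃ a : A, QuotientGroup.mk' M₁ (a : M) = x := by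
    rintro ⟨_, a, ha, rfl⟩
    exact ⟨⟨a, ha⟩, rfl⟩
  choose s hs using hc
  have key : ∀ a a' : A, QuotientGroup.mk' M₁ (a : M) = QuotientGroup.mk' M₁ (a' : M) ↔
      QuotientGroup.mk' M₁ (φ a : M) = QuotientGroup.mk' M₁ (φ a' : M) := by
    intro a a'
    rw [QuotientGroup.mk'_apply, QuotientGroup.mk'_apply, QuotientGroup.mk'_apply,
      QuotientGroup.mk'_apply, QuotientGroup.eq, QuotientGroup.eq]
    have := h (a⁻¹ * a')
    rw [map_mul, map_inv] at this
    exact this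
  let f : A.map (QuotientGroup.mk' M₁) →* B.map (QuotientGroup.mk' M₁) :=
    MonoidHom.mk' (fun x => ⟨QuotientGroup.mk' M₁ (φ (s x) : M), ⟨φ (s x), (φ (s x)).2, rfl⟩⟩)
      (by
        intro x y
        apply Subtype.ext
        have h1 : QuotientGroup.mk' M₁ ((s (x * y) : A) : M) =
            QuotientGroup.mk' M₁ ((s x * s y : A) : M) := by
          rw [hs, Subgroup.coe_mul, Subgroup.coe_mul, map_mul, hs, hs]
        have h2 := (key _ _).1 h1
        show QuotientGroup.mk' M₁ (φ (s (x * y)) : M) =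
          QuotientGroup.mk' M₁ (φ (s x) : M) * QuotientGroup.mk' M₁ (φ (s y) : M)
        rw [h2, map_mul, Subgroup.coe_mul, map_mul])
  have hf : ∀ a : A, ((f ⟨QuotientGroup.mk' M₁ a, ⟨a, a.2, rfl⟩⟩ :
      B.map (QuotientGroup.mk' M₁)) : M ⧸ M₁) = QuotientGroup.mk' M₁ (φ a : M) := by
    intro a
    exact (key _ _).1 (hs ⟨QuotientGroup.mk' M₁ a, ⟨a, a.2, rfl⟩⟩)
  have hb : Function.Bijective f := by
    constructor
    · intro x y hxy
      apply Subtype.ext
      rw [← hs x, ← hs y]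
      exact (key _ _).2 (congrArg Subtype.val hxy)
    · rintro ⟨_, b, hb, rfl⟩
      refine ⟨⟨QuotientGroup.mk' M₁ (φ.symm ⟨b, hb⟩ : A), ⟨_, (φ.symm ⟨b, hb⟩).2, rfl⟩⟩, ?_⟩
      apply Subtype.ext
      rw [hf (φ.symm ⟨b, hb⟩), MulEquiv.apply_symm_apply]
  exact ⟨MulEquiv.ofBijective f hb, hf⟩

end quotiso

section hnn

variable {C : ∀ (G : Type) [Group G], Prop} {M : Type} [Group M] {A B : Subgroup M}

/-- homomorphisms from the HNN extension of the quotient -/
theorem lift_quot {φ : A ≃* B} (M₁ : Subgroup M) [M₁.Normal]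
    (φ' : A.map (QuotientGroup.mk' M₁) ≃* B.map (QuotientGroup.mk' M₁))
    (hφ' : ∀ a : A, ((φ' ⟨QuotientGroup.mk' M₁ a, ⟨a, a.2, rfl⟩⟩ :
      B.map (QuotientGroup.mk' M₁)) : M ⧸ M₁) = QuotientGroup.mk' M₁ (φ a : M))
    {P : Type} [Group P] (g : HNNExtension M A B φ →* P) (hg : ∀ x ∈ M₁, g (of x) = 1) :
    ∃ g' : HNNExtension (M ⧸ M₁) _ _ φ' →* P, (∀ x : M, g' (of (QuotientGroup.mk' M₁ x)) = g (of x)) ∧
      g' t = g t := by
  have hg' : M₁ ≤ (g.comp of).ker := fun x hx => hg x hx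
  refine ⟨lift (QuotientGroup.lift M₁ (g.comp of) hg') (g t) ?_, fun x => ?_, ?_⟩
  · rintro ⟨_, a, ha, rfl⟩
    have h1 := hφ' ⟨a, ha⟩
    have h2 : (φ' ⟨QuotientGroup.mk' M₁ a, ⟨a, ha, rfl⟩⟩ : M ⧸ M₁) =
        QuotientGroup.mk' M₁ (φ ⟨a, ha⟩ : M) := h1
    rw [h2]
    show g t * g (of a) = g (of (φ ⟨a, ha⟩ : M)) * g t
    rw [← map_mul, ← map_mul]
    exact congrArg g (HNNExtension.t_mul_of ⟨a, ha⟩)
  · rw [HNNExtension.lift_of]
    rfl
  · rw [HNNExtension.lift_t]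

/-- the homomorphism to the HNN extension of the quotient -/
theorem to_quot {φ : A ≃* B} (M₁ : Subgroup M) [M₁.Normal]
    (φ' : A.map (QuotientGroup.mk' M₁) ≃* B.map (QuotientGroup.mk' M₁))
    (hφ' : ∀ a : A, ((φ' ⟨QuotientGroup.mk' M₁ a, ⟨a, a.2, rfl⟩⟩ :
      B.map (QuotientGroup.mk' M₁)) : M ⧸ M₁) = QuotientGroup.mk' M₁ (φ a : M)) :
    ∃ κ : HNNExtension M A B φ →* HNNExtension (M ⧸ M₁) _ _ φ',
      (∀ x : M, κ (of x) = of (QuotientGroup.mk' M₁ x)) ∧ κ t = t ∧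
        ∀ x : M, κ (of x) = 1 ↔ x ∈ M₁ := by
  have h0 : ∀ a : A, (t : HNNExtension (M ⧸ M₁) _ _ φ') * (of.comp (QuotientGroup.mk' M₁)) (a : M) =
      (of.comp (QuotientGroup.mk' M₁)) (φ a : M) * t := by
    intro a
    have h1 := HNNExtension.t_mul_of (φ := φ') ⟨QuotientGroup.mk' M₁ (a : M), ⟨a, a.2, rfl⟩⟩
    rw [hφ'] at h1
    exact h1
  refine ⟨lift (of.comp (QuotientGroup.mk' M₁)) t h0, fun x => ?_, ?_, fun x => ?_⟩
  · rw [HNNExtension.lift_of]
    rfl
  · rw [HNNExtension.lift_t]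
  · rw [HNNExtension.lift_of, MonoidHom.comp_apply]
    rw [← map_one (of : M ⧸ M₁ →* HNNExtension (M ⧸ M₁) _ _ φ'),
      (HNNExtension.of_injective φ').eq_iff]
    exact QuotientGroup.eq_one_iff x

/-- the representation by permutations that commute with the translations -/
theorem exists_rep_hnn (φ : A ≃* B) (N : Subgroup M) [N.Normal]
    (hc : ∀ a ∈ N, ∀ b ∈ N, a * b = b * a) (hN : ∀ a : A, (a : M) ∈ N ↔ (φ a : M) ∈ N) :
    ∃ (X : Type) (F : HNNExtension M A B φ →* Equiv.Perm (X × DD)), (∀ g, F g ∈ Eqv X) ∧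
      (∀ x ∈ N, F (of x) ∈ Trs X) ∧ (∀ x, F (of x) = 1 → x = 1) := by
  let Z : Type := (M ⧸ N) × Ch N × DD
  let I : Type := ℕ → Z
  have hI : Nonempty I := ⟨fun _ => (1, 0, 0)⟩
  let e₁ : YY N I → I := fun y n => Nat.casesOn n (y.1.1, y.1.2.1, y.2) y.1.2.2
  have he₁ : Function.Injective e₁ := by
    rintro ⟨⟨x, α, i⟩, d⟩ ⟨⟨x', α', i'⟩, d'⟩ he
    have h0 := congrFun he 0
    have hi : i = i' := funext fun n => congrFun he (n + 1)
    have h1 : (x, α, d) = (x', α', d') := h0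
    simp only [Prod.mk.injEq] at h1
    obtain ⟨rfl, rfl, rfl⟩ := h1
    rw [hi]
  obtain ⟨ψ, hψ, hψ'⟩ := exists_match hc hc A.subtype (B.subtype.comp φ.toMonoidHom)
    (Subgroup.subtype_injective A)
    ((Subgroup.subtype_injective B).comp φ.injective) (by
      ext a
      exact hN a) e₁ e₁ he₁ he₁
  let F : HNNExtension M A B φ →* Equiv.Perm (YY N I) := lift (rho N I) ψ (by
    intro a
    ext1 y
    exact hψ a y)
  have hF : ∀ x y, F (of x) y = act x y := by
    intro x y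
    show (lift (rho N I) ψ _ (of x)) y = _
    rw [HNNExtension.lift_of]
    rfl
  have hFt : F t = ψ := HNNExtension.lift_t _ _ _
  have hE : ∀ x, F (of x) ∈ Eqv ((M ⧸ N) × Ch N × I) := by
    intro x δ y
    rw [hF, hF]
    exact act_sh _ _ _
  refine ⟨(M ⧸ N) × Ch N × I, F, ?_, ?_, ?_⟩
  · intro g
    induction g using HNNExtension.induction_on with
    | of x => exact hE x
    | t =>
      intro δ y
      rw [hFt]
      exact hψ' δ y
    | mul x y hx hy =>
      rw [map_mul]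
      exact (Eqv _).mul_mem hx hy
    | inv x hx =>
      rw [map_inv]
      exact (Eqv _).inv_mem hx
  · intro x hx
    refine ⟨hE x, fun y => ?_⟩
    rw [hF]
    exact act_trans x hx y
  · intro x h1
    apply act_faithful (I := I) hc
    intro y
    rw [← hF, h1]
    rfl

/-- **HNN extensions.** -/
theorem hnn (hC : ClosedE C) (hm : AbCyc C) {Q : Type} [Group Q] (φ : A ≃* B)
    (π : HNNExtension M A B φ →* Q) (hQ : C Q)
    (hab : ∀ x y : M, π (of x) = 1 → π (of y) = 1 → x * y = y * x) :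
    C (HNNExtension M A B φ) := by
  let N : Subgroup M := (π.comp of).ker
  have hN : ∀ a : A, (a : M) ∈ N ↔ (φ a : M) ∈ N := by
    intro a
    show π (of (a : M)) = 1 ↔ π (of (φ a : M)) = 1
    rw [HNNExtension.equiv_eq_conj, map_mul, map_mul, map_inv, mul_inv_eq_one,
      mul_eq_left]
  obtain ⟨X, F, hF, hFN, hF1⟩ := exists_rep_hnn φ N (fun a ha b hb => hab a b ha hb) hN
  obtain ⟨φ', hφ'⟩ := quot_iso φ N hN
  obtain ⟨κ, hκ, hκt, hκ1⟩ := to_quot (φ := φ) N φ' hφ'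
  -- the quotient is in the class
  obtain ⟨π', hπ', -⟩ := lift_quot (φ := φ) N φ' hφ' π (fun x hx => hx)
  have hCq : C (HNNExtension (M ⧸ N) _ _ φ') := by
    refine hnn_thm C hC (M ⧸ N) Q _ _ φ' π' ?_ hQ
    rw [injective_iff_map_eq_one]
    intro x hx
    obtain ⟨x, rfl⟩ := QuotientGroup.mk'_surjective N x
    rw [MonoidHom.comp_apply, hπ'] at hx
    exact (QuotientGroup.eq_one_iff x).2 hx
  let R : Subgroup (HNNExtension M A B φ) := κ.ker
  have hCR : C (HNNExtension M A B φ ⧸ R) :=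
    hC.base.of_injective _ _ (QuotientGroup.kerLift κ) (QuotientGroup.kerLift_injective κ) hCq
  -- the kernel is generated by the conjugates of `N`
  let T : Subgroup (HNNExtension M A B φ) := (Trs X).comap F
  have hT : T.Normal := ⟨fun x hx g => by
    show F (g * x * g⁻¹) ∈ Trs X
    rw [map_mul, map_mul, map_inv]
    exact Trs_conj (hF g) hx⟩
  have hRT : R ≤ T := by
    obtain ⟨g', hg', hg't⟩ := lift_quot (φ := φ) N φ' hφ' (QuotientGroup.mk' T)
      (fun x hx => (QuotientGroup.eq_one_iff _).2 (hFN x hx))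
    have h1 : g'.comp κ = QuotientGroup.mk' T := by
      apply HNNExtension.hom_ext
      · ext x
        rw [MonoidHom.comp_apply, MonoidHom.comp_apply, hκ, hg']
        rfl
      · rw [MonoidHom.comp_apply, hκt, hg't]
    intro x hx
    have hx' : κ x = 1 := hx
    have h2 := DFunLike.congr_fun h1 x
    rw [MonoidHom.comp_apply, hx', map_one] at h2
    exact (QuotientGroup.eq_one_iff x).1 h2.symm
  have hcomm : ⁅R, R⁆ ≤ F.ker := by
    rw [Subgroup.commutator_le]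
    intro a ha b hb
    show F ⁅a, b⁆ = 1
    rw [map_commutatorElement, commutatorElement_eq_one_iff_mul_comm]
    exact Trs_comm (hRT ha) (hRT hb)
  refine hnn_thm C hC M (HNNExtension M A B φ ⧸ ⁅R, R⁆) A B φ (QuotientGroup.mk' _) ?_
    (quot_mem hC hm R hCR)
  rw [injective_iff_map_eq_one]
  intro x hx
  exact hF1 x (hcomm ((QuotientGroup.eq_one_iff _).1 hx))

/-- a finite decreasing series with abelian factors that is compatible with the isomorphism -/
structure SeriesH (φ : A ≃* B) (n : ℕ) (m : ℕ → Subgroup M) : Prop where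
  normal : ∀ i, (m i).Normal
  dec : ∀ i, m (i + 1) ≤ m i
  inter : ∀ i, ∀ a : A, (a : M) ∈ m i ↔ (φ a : M) ∈ m i
  comm : ∀ i, i < n → ∀ x ∈ m i, ∀ y ∈ m i, x * y * x⁻¹ * y⁻¹ ∈ m (i + 1)
  bot : m n = ⊥

/-- **HNN extensions with compatible series.** -/
theorem hnn_chain (hC : ClosedE C) (hm : AbCyc C) (φ : A ≃* B) (n : ℕ) :
    ∀ (Q : Type) [Group Q] (π : HNNExtension M A B φ →* Q) (m : ℕ → Subgroup M), C Q →
    SeriesH φ n m → (∀ x, π (of x) = 1 ↔ x ∈ m 0) → C (HNNExtension M A B φ) := by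
  induction n with
  | zero =>
    intro Q _ π m hQ hs h0
    refine hnn_thm C hC M Q A B φ π ?_ hQ
    rw [injective_iff_map_eq_one]
    intro x hx
    have := (h0 x).1 hx
    rw [hs.bot] at this
    exact Subgroup.mem_bot.1 this
  | succ n ih =>
    intro Q _ π m hQ hs h0
    have hn := hs.normal 1
    obtain ⟨φ', hφ'⟩ := quot_iso φ (m 1) (hs.inter 1)
    obtain ⟨κ, hκ, hκt, hκ1⟩ := to_quot (φ := φ) (m 1) φ' hφ'
    obtain ⟨π', hπ', -⟩ := lift_quot (φ := φ) (m 1) φ' hφ' π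
      (fun x hx => (h0 x).2 (hs.dec 0 hx))
    have hCq : C (HNNExtension (M ⧸ m 1) _ _ φ') := by
      refine hnn hC hm φ' π' hQ ?_
      intro x y hx hy
      obtain ⟨x, rfl⟩ := QuotientGroup.mk'_surjective (m 1) x
      obtain ⟨y, rfl⟩ := QuotientGroup.mk'_surjective (m 1) y
      rw [hπ'] at hx hy
      have h1 := hs.comm 0 (by omega) x ((h0 x).1 hx) y ((h0 y).1 hy)
      have h2 : QuotientGroup.mk' (m 1) (x * y * x⁻¹ * y⁻¹) = 1 :=
        (QuotientGroup.eq_one_iff _).2 h1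
      rw [← commutatorElement_def, map_commutatorElement,
        commutatorElement_eq_one_iff_mul_comm] at h2
      exact h2
    exact ih _ κ (fun i => m (i + 1)) hCq
      ⟨fun i => hs.normal _, fun i => hs.dec _, fun i => hs.inter _,
        fun i hi => hs.comm (i + 1) (by omega), hs.bot⟩ hκ1

end hnn

end Pool.Agent.KS6_55.FJ
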