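import Mathlib

/-!
Equivariant bijections between sets with group actions, and the sets with a free action of
`ℚ/ℤ` on which a group acts through a quotient, with abelian kernel acting by all its characters.
-/

set_option autoImplicit false

namespace Pool.Agent.KS6_55.FJ

/-- a homomorphism to permutations from an action given by a function -/
def permHom {G Z : Type} [Group G] (F : G → Z → Z) (h1 : ∀ z, F 1 z = z)
    (hm : ∀ g h z, F (g * h) z = F g (F h z)) : G →* Equiv.Perm Z where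
  toFun g := ⟨F g, F g⁻¹, fun z => by rw [← hm, inv_mul_cancel, h1],
    fun z => by rw [← hm, mul_inv_cancel, h1]⟩
  map_one' := by ext z; exact h1 z
  map_mul' g h := by ext z; exact hm g h z

section iso

variable {L Y Z : Type} [Group L]

/-- orbit equivalence -/
def orbS (ρ : L →* Equiv.Perm Y) : Setoid Y where
  r y z := ∃ l, ρ l y = z
  iseqv :=
    { refl := fun y => ⟨1, by simp⟩
      symm := by
        rintro y z ⟨l, rfl⟩
        exact ⟨l⁻¹, by simp⟩
      trans := by
        rintro x y z ⟨l, rfl⟩ ⟨m, rfl⟩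
        exact ⟨m * l, by simp⟩ }

/-- Equivariant Schroeder-Bernstein with equal stabilizers. -/
theorem exists_equiv (ρ : L →* Equiv.Perm Y) (ρ' : L →* Equiv.Perm Z) (f : Y → Z) (g : Z → Y)
    (hf1 : ∀ y z, (∃ l, ρ' l (f y) = f z) → ∃ l, ρ l y = z)
    (hf2 : ∀ y l, ρ l y = y ↔ ρ' l (f y) = f y)
    (hg1 : ∀ y z, (∃ l, ρ l (g y) = g z) → ∃ l, ρ' l y = z)
    (hg2 : ∀ z l, ρ l (g z) = g z ↔ ρ' l z = z) :
    ∃ ψ : Y ≃ Z, ∀ l y, ψ (ρ l y) = ρ' l (ψ y) := by
  classical
  let O := Quotient (orbS ρ)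
  let O' := Quotient (orbS ρ')
  let f' : O → O' := fun o => Quotient.mk _ (f o.out)
  let g' : O' → O := fun o => Quotient.mk _ (g o.out)
  have hf' : Function.Injective f' := by
    intro o p h
    have h1 : ∃ l, ρ' l (f o.out) = f p.out := Quotient.exact h
    have h2 := hf1 _ _ h1
    rw [← Quotient.out_eq o, ← Quotient.out_eq p]
    exact Quotient.sound h2
  have hg' : Function.Injective g' := by
    intro o p h
    have h1 : ∃ l, ρ l (g o.out) = g p.out := Quotient.exact h
    have h2 := hg1 _ _ h1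
    rw [← Quotient.out_eq o, ← Quotient.out_eq p]
    exact Quotient.sound h2
  obtain ⟨h, hb, hR⟩ := Function.Embedding.schroeder_bernstein_of_rel hf' hg'
    (fun o o' => ∃ y z, Quotient.mk (orbS ρ) y = o ∧ Quotient.mk (orbS ρ') z = o' ∧
      ∀ l, ρ l y = y ↔ ρ' l z = z)
    (fun o => ⟨o.out, f o.out, Quotient.out_eq o, rfl, fun l => hf2 _ l⟩)
    (fun o => ⟨g o.out, o.out, rfl, Quotient.out_eq o, fun l => hg2 _ l⟩)
  choose yo zo hy hz hst using hR
  have hl : ∀ y : Y, ∃ l, ρ l (yo (Quotient.mk (orbS ρ) y)) = y := by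
    intro y
    have : Quotient.mk (orbS ρ) (yo (Quotient.mk (orbS ρ) y)) = Quotient.mk (orbS ρ) y := hy _
    exact Quotient.exact this
  choose lo hlo using hl
  let ψ : Y → Z := fun y => ρ' (lo y) (zo (Quotient.mk (orbS ρ) y))
  -- well-definedness
  have key : ∀ (o : O) (l m : L), ρ l (yo o) = ρ m (yo o) ↔ ρ' l (zo o) = ρ' m (zo o) := by
    intro o l m
    have h1 : ρ l (yo o) = ρ m (yo o) ↔ ρ (m⁻¹ * l) (yo o) = yo o := by
      rw [map_mul, Equiv.Perm.mul_apply, map_inv, Equiv.Perm.inv_eq_iff_eq]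
    have h2 : ρ' l (zo o) = ρ' m (zo o) ↔ ρ' (m⁻¹ * l) (zo o) = zo o := by
      rw [map_mul, Equiv.Perm.mul_apply, map_inv, Equiv.Perm.inv_eq_iff_eq]
    rw [h1, h2]
    exact hst o _
  have hmk : ∀ l y, Quotient.mk (orbS ρ) (ρ l y) = Quotient.mk (orbS ρ) y := by
    intro l y
    symm
    exact Quotient.sound ⟨l, rfl⟩
  have hψ : ∀ (o : O) (l : L), ψ (ρ l (yo o)) = ρ' l (zo o) := by
    intro o l
    have h1 : Quotient.mk (orbS ρ) (ρ l (yo o)) = o := (hmk _ _).trans (hy o)
    have h2 := hlo (ρ l (yo o))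
    show ρ' (lo (ρ l (yo o))) (zo (Quotient.mk (orbS ρ) (ρ l (yo o)))) = ρ' l (zo o)
    rw [h1] at h2 ⊢
    exact (key o _ _).1 h2
  have hψ' : ∀ l y, ψ (ρ l y) = ρ' l (ψ y) := by
    intro l y
    conv_lhs => rw [← hlo y]
    rw [← Equiv.Perm.mul_apply, ← map_mul, hψ, map_mul, Equiv.Perm.mul_apply]
  have hinj : Function.Injective ψ := by
    intro y y' e
    have h1 : Quotient.mk (orbS ρ') (ψ y) = h (Quotient.mk (orbS ρ) y) := by
      rw [← hz (Quotient.mk (orbS ρ) y)]
      symm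
      exact Quotient.sound ⟨_, rfl⟩
    have h2 : Quotient.mk (orbS ρ') (ψ y') = h (Quotient.mk (orbS ρ) y') := by
      rw [← hz (Quotient.mk (orbS ρ) y')]
      symm
      exact Quotient.sound ⟨_, rfl⟩
    have h3 : Quotient.mk (orbS ρ) y = Quotient.mk (orbS ρ) y' :=
      hb.1 (h1.symm.trans ((congrArg _ e).trans h2))
    have e' : ρ' (lo y) (zo (Quotient.mk (orbS ρ) y)) =
        ρ' (lo y') (zo (Quotient.mk (orbS ρ) y')) := e
    rw [← hlo y, ← hlo y']
    rw [h3] at e' ⊢
    exact (key _ _ _).2 e'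
  have hsurj : Function.Surjective ψ := by
    intro z
    obtain ⟨o, ho⟩ := hb.2 (Quotient.mk (orbS ρ') z)
    have h1 : Quotient.mk (orbS ρ') (zo o) = Quotient.mk (orbS ρ') z := (hz o).trans ho
    obtain ⟨l, hl⟩ := Quotient.exact h1
    exact ⟨ρ l (yo o), (hψ o l).trans hl⟩
  exact ⟨Equiv.ofBijective ψ ⟨hinj, hsurj⟩, hψ'⟩

end iso

section yset

/-- `ℚ/ℤ` -/
abbrev DD : Type := AddCircle (1 : ℚ)

variable {H : Type} [Group H]

/-- characters -/
abbrev Ch (N : Subgroup H) : Type := Additive N →+ DD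

open Classical in
/-- a character as a function on the whole group -/
noncomputable def ev {N : Subgroup H} (α : Ch N) (h : H) : DD :=
  if hh : h ∈ N then α (Additive.ofMul ⟨h, hh⟩) else 0

theorem ev_of_mem {N : Subgroup H} (α : Ch N) {h : H} (hh : h ∈ N) :
    ev α h = α (Additive.ofMul ⟨h, hh⟩) := dif_pos hh

theorem ev_mul {N : Subgroup H} (α : Ch N) {h k : H} (hh : h ∈ N) (hk : k ∈ N) :
    ev α (h * k) = ev α h + ev α k := by
  rw [ev_of_mem α hh, ev_of_mem α hk, ev_of_mem α (N.mul_mem hh hk), ← map_add]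
  rfl

theorem ev_one {N : Subgroup H} (α : Ch N) : ev α 1 = 0 := by
  rw [ev_of_mem α N.one_mem]
  exact map_zero α

/-- the set with the actions of `H` and `ℚ/ℤ` -/
abbrev YY (N : Subgroup H) (I : Type) : Type := ((H ⧸ N) × Ch N × I) × DD

/-- the translation by an element of `ℚ/ℤ` -/
def sh {X : Type} (δ : DD) (y : X × DD) : X × DD := (y.1, y.2 + δ)

variable (N : Subgroup H) [N.Normal]

/-- the element of `N` of the cocycle -/
noncomputable def cc (h : H) (x : H ⧸ N) : H := (h • x).out⁻¹ * h * x.out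

theorem cc_mem (h : H) (x : H ⧸ N) : cc N h x ∈ N := by
  unfold cc
  rw [mul_assoc]
  apply QuotientGroup.eq.1
  rw [QuotientGroup.out_eq']
  conv_lhs => rw [← QuotientGroup.out_eq' x]
  rfl

theorem cc_mul (h k : H) (x : H ⧸ N) : cc N (h * k) x = cc N h (k • x) * cc N k x := by
  unfold cc
  rw [mul_smul]
  group

theorem cc_one (x : H ⧸ N) : cc N 1 x = 1 := by
  unfold cc
  rw [one_smul]
  group

variable {N} {I : Type}

/-- the action of `H` -/
noncomputable def act (h : H) (y : YY N I) : YY N I :=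
  ((h • y.1.1, y.1.2.1, y.1.2.2), y.2 + ev y.1.2.1 (cc N h y.1.1))

theorem act_one (y : YY N I) : act 1 y = y := by
  unfold act
  rw [one_smul, cc_one, ev_one, add_zero]

theorem act_mul (h k : H) (y : YY N I) : act (h * k) y = act h (act k y) := by
  unfold act
  simp only
  rw [mul_smul, cc_mul, ev_mul _ (cc_mem N _ _) (cc_mem N _ _), add_assoc,
    add_comm (ev _ (cc N h _))]

theorem act_sh (h : H) (δ : DD) (y : YY N I) : act h (sh δ y) = sh δ (act h y) := by
  unfold act sh
  simp only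
  rw [add_right_comm]

variable (N I)

/-- the action as a homomorphism -/
noncomputable def rho : H →* Equiv.Perm (YY N I) := permHom act act_one act_mul

variable {N I}

theorem rho_apply (h : H) (y : YY N I) : rho N I h y = act h y := rfl

/-- the action of `K × ℚ/ℤ` -/
noncomputable def rhoL {K : Type} [Group K] (ι : K →* H) :
    K × Multiplicative DD →* Equiv.Perm (YY N I) :=
  permHom (fun l y => sh l.2.toAdd (act (ι l.1) y))
    (fun y => by
      simp only [Prod.fst_one, Prod.snd_one, map_one, act_one]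
      unfold sh
      rw [toAdd_one, add_zero])
    (fun l m y => by
      simp only [Prod.fst_mul, Prod.snd_mul, map_mul, act_mul, act_sh, toAdd_mul]
      unfold sh
      simp only
      rw [add_assoc, add_comm (Multiplicative.toAdd m.2)])

theorem smul_eq_iff (h : H) (x : H ⧸ N) : h • x = x ↔ h ∈ N := by
  induction x using QuotientGroup.induction_on with
  | H g =>
    have e : h • (g : H ⧸ N) = ((h * g : H) : H ⧸ N) := rfl
    rw [e, QuotientGroup.eq]
    have h1 : (h * g)⁻¹ * g = g⁻¹ * h⁻¹ * g := by group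
    rw [h1]
    constructor
    · intro h2
      have h3 := Subgroup.Normal.conj_mem ‹N.Normal› _ h2 g
      have h4 : g * (g⁻¹ * h⁻¹ * g) * g⁻¹ = h⁻¹ := by group
      rw [h4] at h3
      exact (N.inv_mem_iff).1 h3
    · intro h2
      have h3 := Subgroup.Normal.conj_mem ‹N.Normal› _ (N.inv_mem h2) g⁻¹
      rwa [inv_inv] at h3

theorem fix_iff {K : Type} [Group K] (ι : K →* H) (k : K) (δ : Multiplicative DD) (y : YY N I) :
    rhoL ι (k, δ) y = y ↔ ι k ∈ N ∧
      ev y.1.2.1 (y.1.1.out⁻¹ * ι k * y.1.1.out) + δ.toAdd = 0 := by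
  have e : rhoL ι (k, δ) y = ((ι k • y.1.1, y.1.2.1, y.1.2.2),
      y.2 + ev y.1.2.1 (cc N (ι k) y.1.1) + δ.toAdd) := rfl
  rw [e]
  constructor
  · intro h
    have h1 : ι k • y.1.1 = y.1.1 := congrArg (fun z : YY N I => z.1.1) h
    have h2 : y.2 + ev y.1.2.1 (cc N (ι k) y.1.1) + δ.toAdd = y.2 :=
      congrArg (fun z : YY N I => z.2) h
    refine ⟨(smul_eq_iff _ _).1 h1, ?_⟩
    unfold cc at h2
    rw [h1, add_assoc] at h2
    exact left_eq_add.1 h2.symm
  · rintro ⟨h1, h2⟩
    have h3 : ι k • y.1.1 = y.1.1 := (smul_eq_iff _ _).2 h1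
    have h4 : y.2 + ev y.1.2.1 (cc N (ι k) y.1.1) + δ.toAdd = y.2 := by
      unfold cc
      rw [h3, add_assoc, h2, add_zero]
    rw [h3, h4]

end yset

end Pool.Agent.KS6_55.FJ
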